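import Mathlib

/-!
# Generators of `Γ₀(N)` extended by the Fricke involution

A function `Φ a b c d` stands for the value of a homomorphism `Γ₀(N) → ℝ` at the matrix
`(a b; N c d)`. If the homomorphism is invariant under the Fricke involution and vanishes at the
parabolic elements, it is determined by its values at the matrices with `1 ≤ a`, `a ^ 2 ≤ N`.
-/

set_option autoImplicit false

namespace Pool.Agent.K4H7.HP

/-- an additive function on the matrices `(a b; N c d)` of determinant one which is invariant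
under the Fricke involution and vanishes at the upper triangular matrices -/
structure Hm (N : ℤ) (Φ : ℤ → ℤ → ℤ → ℤ → ℝ) : Prop where
  mul : ∀ a b c d a' b' c' d' : ℤ, a * d - N * b * c = 1 → a' * d' - N * b' * c' = 1 →
    Φ (a * a' + N * b * c') (a * b' + b * d') (c * a' + d * c') (N * c * b' + d * d') =
      Φ a b c d + Φ a' b' c' d'
  T : ∀ k : ℤ, Φ 1 k 0 1 = 0
  neg : Φ (-1) 0 0 (-1) = 0
  w : ∀ a b c d : ℤ, a * d - N * b * c = 1 → Φ d (-c) (-b) a = Φ a b c d

namespace Hm

variable {N : ℤ} {Φ : ℤ → ℤ → ℤ → ℤ → ℝ}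

lemma U (h : Hm N Φ) (k : ℤ) : Φ 1 0 k 1 = 0 := by
  have := h.w 1 (-k) 0 1 (by ring)
  rw [h.T, neg_neg, neg_zero] at this
  exact this

lemma inv (h : Hm N Φ) {a b c d : ℤ} (hd : a * d - N * b * c = 1) :
    Φ d (-b) (-c) a = -Φ a b c d := by
  have h1 := h.mul a b c d d (-b) (-c) a hd (by linarith)
  have h2 := h.T 0
  rw [show a * d + N * b * -c = 1 by linarith, show a * -b + b * a = 0 by ring,
    show c * d + d * -c = 0 by ring, show N * c * -b + d * a = 1 by linarith, h2] at h1
  linarith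

/-- swap `b` and `c` -/
lemma swap (h : Hm N Φ) {a b c d : ℤ} (hd : a * d - N * b * c = 1) :
    Φ a c b d = -Φ a b c d := by
  have h1 := h.w d (-b) (-c) a (by linarith)
  rw [neg_neg, neg_neg, h.inv hd] at h1
  exact h1

lemma right (h : Hm N Φ) {a b c d : ℤ} (hd : a * d - N * b * c = 1) (k : ℤ) :
    Φ a (b + a * k) c (d + N * c * k) = Φ a b c d := by
  have h1 := h.mul a b c d 1 k 0 1 hd (by ring)
  rw [h.T, add_zero] at h1
  rw [← h1]
  congr 1 <;> ring

lemma left (h : Hm N Φ) {a b c d : ℤ} (hd : a * d - N * b * c = 1) (k : ℤ) :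
    Φ a b (c + a * k) (d + N * b * k) = Φ a b c d := by
  have h1 := h.mul 1 0 k 1 a b c d (by ring) hd
  rw [h.U, zero_add] at h1
  rw [← h1]
  congr 1 <;> ring

/-- the value depends on `a` and `b` modulo `a` only -/
lemma dep (h : Hm N Φ) {a b c d b' c' d' : ℤ} (hd : a * d - N * b * c = 1)
    (hd' : a * d' - N * b' * c' = 1) (ha : a ≠ 0) (hb : a ∣ b' - b) :
    Φ a b c d = Φ a b' c' d' := by
  obtain ⟨k, hk⟩ := hb
  have hb' : b' = b + a * k := by linarith
  subst hb'
  rw [← h.right hd k]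
  set d1 := d + N * c * k with hd1
  have e1 : a * d1 - N * (b + a * k) * c = 1 := by rw [hd1]; linarith
  have hcop : IsCoprime a (N * (b + a * k)) := ⟨d1, -c, by linarith⟩
  have hdvd : a ∣ N * (b + a * k) * (c' - c) := ⟨d' - d1, by linarith⟩
  obtain ⟨m, hm⟩ := hcop.dvd_of_dvd_mul_left hdvd
  have hc' : c' = c + a * m := by linarith
  subst hc'
  have hd2 : d' = d1 + N * (b + a * k) * m := by
    have : a * d' = a * (d1 + N * (b + a * k) * m) := by linarith
    exact mul_left_cancel₀ ha this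
  rw [hd2, h.left e1 m]

lemma upper (h : Hm N Φ) {a b d : ℤ} (hd : a * d = 1) : Φ a b 0 d = 0 := by
  rcases Int.eq_one_or_neg_one_of_mul_eq_one hd with rfl | rfl
  · rw [one_mul] at hd
    rw [hd, h.T]
  · have hd' : d = -1 := by linarith
    subst hd'
    have h1 := h.mul (-1) 0 0 (-1) 1 (-b) 0 1 (by ring) (by ring)
    rw [h.T, h.neg, add_zero] at h1
    rw [← h1]
    congr 1 <;> ring

end Hm

/-- Dirichlet's approximation theorem with `q ^ 2 ≤ N` -/
lemma diri (N : ℕ) (hN : 0 < N) (ξ : ℝ) : ∃ p q : ℤ, 1 ≤ q ∧ q ^ 2 ≤ N ∧ IsCoprime q p ∧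
    (N : ℝ) * (q * ξ - p) ^ 2 < 1 := by
  have hn : 0 < Nat.sqrt N := Nat.sqrt_pos.2 hN
  obtain ⟨r, hr, hrn⟩ := Real.exists_rat_abs_sub_le_and_den_le ξ hn
  have hq : (0 : ℝ) < r.den := by exact_mod_cast r.den_pos
  refine ⟨r.num, r.den, by exact_mod_cast r.den_pos, ?_, ?_, ?_⟩
  · have h1 : r.den * r.den ≤ N := (Nat.mul_le_mul hrn hrn).trans (Nat.sqrt_le N)
    rw [pow_two]
    exact_mod_cast h1
  · rw [isCoprime_comm, Int.isCoprime_iff_gcd_eq_one]
    exact r.reduced
  · have h2 : |(r.den : ℝ) * ξ - r.num| ≤ 1 / ((Nat.sqrt N : ℝ) + 1) := by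
      have e : (r.den : ℝ) * ξ - r.num = r.den * (ξ - r) := by
        rw [Rat.cast_def]; field_simp
      rw [e, abs_mul, abs_of_pos hq]
      calc (r.den : ℝ) * |ξ - r| ≤ r.den * (1 / (((Nat.sqrt N : ℕ) + 1) * r.den)) :=
            mul_le_mul_of_nonneg_left hr hq.le
        _ = 1 / ((Nat.sqrt N : ℝ) + 1) := by field_simp
    have h3 : (N : ℝ) < ((Nat.sqrt N : ℝ) + 1) ^ 2 := by
      have := Nat.sqrt_lt' (m := N) (n := Nat.sqrt N + 1)
      have h4 : N < (Nat.sqrt N + 1) ^ 2 := this.1 (Nat.lt_succ_self _)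
      exact_mod_cast h4
    have h5 : ((r.den : ℝ) * ξ - r.num) ^ 2 ≤ (1 / ((Nat.sqrt N : ℝ) + 1)) ^ 2 := by
      rw [← sq_abs]
      exact pow_le_pow_left₀ (abs_nonneg _) h2 2
    have hN' : (0 : ℝ) < N := by exact_mod_cast hN
    have h6 : (0 : ℝ) < (Nat.sqrt N : ℝ) + 1 := by positivity
    push_cast
    calc (N : ℝ) * ((r.den : ℝ) * ξ - r.num) ^ 2 ≤ N * (1 / ((Nat.sqrt N : ℝ) + 1)) ^ 2 :=
          mul_le_mul_of_nonneg_left h5 hN'.le
      _ < 1 := by
        rw [div_pow, one_pow, mul_one_div, div_lt_one (by positivity)]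
        exact h3

/-- the matrix with a given first row -/
lemma exists_row {N : ℕ} (hN : N.Prime) {p q : ℤ} (hq : 1 ≤ q) (hqN : q ^ 2 ≤ N)
    (hc : IsCoprime q p) : ∃ x y : ℤ, q * y - N * p * x = 1 := by
  have hqlt : q < N := by
    have h2 : (2 : ℤ) ≤ N := by exact_mod_cast hN.two_le
    nlinarith
  have h1 : IsCoprime q (N : ℤ) := by
    rw [isCoprime_comm]
    rw [(Nat.prime_iff_prime_int.1 hN).irreducible.coprime_iff_not_dvd]
    intro h
    have := Int.le_of_dvd (by linarith) h
    linarith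
  obtain ⟨u, v, huv⟩ := h1.mul_right hc
  exact ⟨-v, u, by linarith⟩

/-- **The descent.** -/
theorem descent {N : ℕ} (hN : N.Prime) {Φ : ℤ → ℤ → ℤ → ℤ → ℝ} (h : Hm N Φ)
    (hz : ∀ a b c d : ℤ, 1 ≤ a → a ^ 2 ≤ N → a * d - N * b * c = 1 → Φ a b c d = 0)
    (a b c d : ℤ) (hd : a * d - N * b * c = 1) : Φ a b c d = 0 := by
  have hN0 : (0 : ℝ) < N := by exact_mod_cast hN.pos
  have hN2 : (2 : ℤ) ≤ N := by exact_mod_cast hN.two_le
  have main : ∀ n : ℕ,
      (∀ a b c d : ℤ, a * d - N * b * c = 1 → a ^ 2 ≤ n → Φ a b c d = 0) ∧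
      (∀ a b c d : ℤ, a * d - N * b * c = 1 → N * c ^ 2 ≤ n → Φ a b c d = 0) := by
    intro n
    induction n with
    | zero =>
      constructor
      · intro a b c d hd ha
        exfalso
        have ha0 : a = 0 := by
          have : a ^ 2 ≤ 0 := by simpa using ha
          nlinarith [sq_nonneg a]
        rw [ha0] at hd
        have : (N : ℤ) * (-(b * c)) = 1 := by linarith
        rcases Int.eq_one_or_neg_one_of_mul_eq_one this with h1 | h1 <;> omega
      · intro a b c d hd hc
        have hc0 : c = 0 := by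
          have : (N : ℤ) * c ^ 2 ≤ 0 := by simpa using hc
          nlinarith [sq_nonneg c]
        subst hc0
        exact h.upper (by linarith)
    | succ n ih =>
      obtain ⟨ihA, ihB⟩ := ih
      constructor
      · intro a b c d hd ha
        by_cases ha' : a ^ 2 ≤ (n : ℤ)
        · exact ihA a b c d hd ha'
        · have ha0 : a ≠ 0 := by rintro rfl; apply ha'; simp
          obtain ⟨p, q, hq, hqN, hcop, hap⟩ := diri N hN.pos ((c : ℝ) / a)
          obtain ⟨x, y, hxy⟩ := exists_row hN hq hqN hcop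
          have har : (a : ℝ) ≠ 0 := by exact_mod_cast ha0
          have hsmall : (N : ℤ) * (q * c - p * a) ^ 2 < a ^ 2 := by
            have e : (N : ℝ) * (q * c - p * a) ^ 2 = (N : ℝ) * (q * ((c : ℝ) / a) - p) ^ 2 * a ^ 2 := by
              field_simp
            have ha2 : (0 : ℝ) < (a : ℝ) ^ 2 := by positivity
            have : (N : ℝ) * (q * c - p * a) ^ 2 < (a : ℝ) ^ 2 := by
              rw [e]
              calc _ < 1 * (a : ℝ) ^ 2 := mul_lt_mul_of_pos_right hap ha2
                _ = _ := one_mul _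
            exact_mod_cast this
          have h1 := h.mul y (-x) (-p) q a b c d (by linarith) hd
          have h2 := h.w q p x y hxy
          rw [h2, hz q p x y hq hqN hxy, zero_add] at h1
          rw [← h1]
          refine ihB _ _ _ _ ?_ ?_
          · linear_combination (a * d - N * b * c) * hxy + hd
          · have : (-p * a + q * c : ℤ) = q * c - p * a := by ring
            rw [this]
            push_cast at ha
            linarith
      · intro a b c d hd hc
        by_cases hc' : (N : ℤ) * c ^ 2 ≤ (n : ℤ)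
        · exact ihB a b c d hd hc'
        · have hc0 : c ≠ 0 := by rintro rfl; apply hc'; simp
          obtain ⟨p, q, hq, hqN, hcop, hap⟩ := diri N hN.pos (-(a : ℝ) / (N * c))
          obtain ⟨x, y, hxy⟩ := exists_row hN hq hqN hcop
          have hcr : (c : ℝ) ≠ 0 := by exact_mod_cast hc0
          have hsmall : (q * a + N * p * c) ^ 2 < (N : ℤ) * c ^ 2 := by
            have e : ((q : ℝ) * a + N * p * c) ^ 2 =
                (N : ℝ) * (q * (-(a : ℝ) / (N * c)) - p) ^ 2 * (N * c ^ 2) := by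
              field_simp
              ring
            have hc2 : (0 : ℝ) < (N : ℝ) * (c : ℝ) ^ 2 := by positivity
            have : ((q : ℝ) * a + N * p * c) ^ 2 < (N : ℝ) * (c : ℝ) ^ 2 := by
              rw [e]
              calc _ < 1 * ((N : ℝ) * (c : ℝ) ^ 2) := mul_lt_mul_of_pos_right hap hc2
                _ = _ := one_mul _
            exact_mod_cast this
          have h1 := h.mul q p x y a b c d hxy hd
          rw [hz q p x y hq hqN hxy, zero_add] at h1
          rw [← h1]
          refine ihA _ _ _ _ ?_ ?_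
          · linear_combination (a * d - N * b * c) * hxy + hd
          · push_cast at hc
            linarith
  exact (main (a ^ 2).toNat).1 a b c d hd (by rw [Int.toNat_of_nonneg (sq_nonneg a)])

end Pool.Agent.K4H7.HP
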