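import Mathlib

/-!
# A bound for `∑ φ(c)`, by sieving with 2, 3 and 5
-/

set_option autoImplicit false

namespace Pool.Agent.K4H7.HP

/-- `30 φ(m) / m` for `m = gcd(c, 30)` -/
def wt (c : ℕ) : ℕ :=
  (if 2 ∣ c then 1 else 2) * (if 3 ∣ c then 2 else 3) * (if 5 ∣ c then 4 else 5)

/-- the bound for one `c` -/
lemma tot_le (c : ℕ) : 30 * Nat.totient c ≤ wt c * c := by
  rcases Nat.eq_zero_or_pos c with rfl | hc
  · simp
  have key : ∀ S : Finset ℕ, S ⊆ c.primeFactors → (Nat.totient c : ℚ) ≤ c * ∏ p ∈ S, (1 - (p : ℚ)⁻¹) := by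
    intro S hS
    rw [Nat.totient_eq_mul_prod_factors]
    refine mul_le_mul_of_nonneg_left ?_ (Nat.cast_nonneg _)
    rw [← Finset.prod_sdiff hS]
    have h1 : ∀ p ∈ c.primeFactors, (0 : ℚ) ≤ 1 - (p : ℚ)⁻¹ ∧ 1 - (p : ℚ)⁻¹ ≤ 1 := by
      intro p hp
      have hp1 : (1 : ℚ) ≤ p := by exact_mod_cast (Nat.prime_of_mem_primeFactors hp).one_le
      constructor
      · rw [sub_nonneg]; exact inv_le_one_of_one_le₀ hp1
      · have : (0 : ℚ) ≤ (p : ℚ)⁻¹ := by positivity
        linarith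
    have h2 : ∏ p ∈ c.primeFactors \ S, (1 - (p : ℚ)⁻¹) ≤ 1 :=
      Finset.prod_le_one (fun p hp => (h1 p (Finset.mem_sdiff.1 hp).1).1)
        (fun p hp => (h1 p (Finset.mem_sdiff.1 hp).1).2)
    exact mul_le_of_le_one_left (Finset.prod_nonneg fun p hp => (h1 p (hS hp)).1) h2
  have hmem : ∀ p : ℕ, p.Prime → (p ∣ c ↔ p ∈ c.primeFactors) := fun p hp => by
    rw [Nat.mem_primeFactors]
    exact ⟨fun h => ⟨hp, h, hc.ne'⟩, fun h => h.2.1⟩
  have m2 := hmem 2 Nat.prime_two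
  have m3 := hmem 3 Nat.prime_three
  have m5 := hmem 5 Nat.prime_five
  set S : Finset ℕ := c.primeFactors.filter (fun p => p ∈ ({2, 3, 5} : Finset ℕ)) with hS
  have h0 := key S (Finset.filter_subset _ _)
  have h1 : 30 * ∏ p ∈ S, (1 - (p : ℚ)⁻¹) = wt c := by
    have h2 : ∏ p ∈ S, (1 - (p : ℚ)⁻¹) = ∏ p ∈ ({2, 3, 5} : Finset ℕ),
        (if p ∣ c then (1 - (p : ℚ)⁻¹) else 1) := by
      rw [← Finset.prod_filter]
      refine Finset.prod_congr ?_ fun _ _ => rfl
      ext p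
      simp only [hS, Finset.mem_filter]
      constructor
      · rintro ⟨h3, h4⟩
        exact ⟨h4, Nat.dvd_of_mem_primeFactors h3⟩
      · rintro ⟨h3, h4⟩
        refine ⟨?_, h3⟩
        simp only [Finset.mem_insert, Finset.mem_singleton] at h3
        rcases h3 with rfl | rfl | rfl
        · exact m2.1 h4
        · exact m3.1 h4
        · exact m5.1 h4
    rw [h2, Finset.prod_insert (by decide), Finset.prod_insert (by decide), Finset.prod_singleton]
    unfold wt
    split_ifs <;> norm_num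
  have h3 : (30 * Nat.totient c : ℚ) ≤ wt c * c := by
    rw [← h1]
    linarith
  exact_mod_cast h3

lemma wt_sum (K : ℕ) : ∑ r ∈ Finset.range 30, wt (30 * K + r + 1) = 576 := by
  have h : ∀ r, wt (30 * K + r + 1) = wt (r + 1) := by
    intro r
    unfold wt
    have e2 : (2 ∣ 30 * K + r + 1) ↔ (2 ∣ r + 1) := by omega
    have e3 : (3 ∣ 30 * K + r + 1) ↔ (3 ∣ r + 1) := by omega
    have e5 : (5 ∣ 30 * K + r + 1) ↔ (5 ∣ r + 1) := by omega
    simp only [e2, e3, e5]
  simp only [h]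
  decide

/-- the bound for the sum over `c ≤ 30 K` -/
lemma tot_sum (K : ℕ) : ∑ c ∈ Finset.range (30 * K), Nat.totient (c + 1) ≤ 288 * K * (K + 1) := by
  induction K with
  | zero => simp
  | succ K ih =>
    have e : 30 * (K + 1) = 30 * K + 30 := by ring
    rw [e, Finset.sum_range_add]
    have h1 : 30 * ∑ r ∈ Finset.range 30, Nat.totient (30 * K + r + 1) ≤
        ∑ r ∈ Finset.range 30, wt (30 * K + r + 1) * (30 * (K + 1)) := by
      rw [Finset.mul_sum]
      refine Finset.sum_le_sum fun r hr => ?_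
      refine (tot_le _).trans (Nat.mul_le_mul_left _ ?_)
      have := Finset.mem_range.1 hr
      omega
    rw [← Finset.sum_mul, wt_sum] at h1
    have h2 : ∑ r ∈ Finset.range 30, Nat.totient (30 * K + r + 1) ≤ 576 * (K + 1) := by
      have : 30 * ∑ r ∈ Finset.range 30, Nat.totient (30 * K + r + 1) ≤ 30 * (576 * (K + 1)) := by
        linarith
      exact Nat.le_of_mul_le_mul_left this (by norm_num)
    nlinarith

/-- **The bound.** -/
theorem tot_sqrt (N : ℕ) : ((∑ c ∈ Finset.range (Nat.sqrt N), Nat.totient (c + 1) : ℕ) : ℝ) ≤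
    8 / 25 * N + 144 / 5 * Real.sqrt N + 576 := by
  set n := Nat.sqrt N with hn
  set K := n / 30 + 1 with hK
  have hnK : n ≤ 30 * K := by omega
  have h1 : ∑ c ∈ Finset.range n, Nat.totient (c + 1) ≤ 288 * K * (K + 1) :=
    (Finset.sum_le_sum_of_subset (Finset.range_subset_range.2 hnK)).trans (tot_sum K)
  have h2 : (K : ℝ) ≤ n / 30 + 1 := by
    rw [hK]
    push_cast
    have := @Nat.cast_div_le ℝ _ _ _ n 30
    push_cast at this
    linarith
  have h3 : ((∑ c ∈ Finset.range n, Nat.totient (c + 1) : ℕ) : ℝ) ≤ 288 * K * (K + 1) := by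
    exact_mod_cast h1
  have h4 : (n : ℝ) ≤ Real.sqrt N := by
    rw [hn]; exact Real.nat_sqrt_le_real_sqrt
  have h5 : (n : ℝ) ^ 2 ≤ N := by
    have := Nat.sqrt_le' N
    rw [hn]; exact_mod_cast this
  have h6 : (0 : ℝ) ≤ K := by positivity
  have h7 : (288 : ℝ) * K * (K + 1) ≤ 288 * (n / 30 + 1) * (n / 30 + 1 + 1) := by
    gcongr
  have h8 : (288 : ℝ) * (n / 30 + 1) * (n / 30 + 1 + 1) = 8 / 25 * (n : ℝ) ^ 2 + 144 / 5 * n + 576 := by
    ring
  rw [h8] at h7
  linarith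

end Pool.Agent.K4H7.HP
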