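import Pool.Agent.K4H7.HP.Per
import Pool.Agent.K4H7.HP.Tot

/-!
# At most `0.08 N + O(√N)` newforms of weight two and prime level `N` have sign `-1`
-/

set_option autoImplicit false

open Complex Filter Topology Set UpperHalfPlane MatrixGroups CongruenceSubgroup ModularGroup

namespace Pool.Agent.K4H7.HP

open Pool.Agent.TH940 (prim Fr prim_fricke)
open Pool.Agent.Y18.BSD
open Pool.Agent.K4H13.CV
open W388.LV (SF IsNewBasis)

/-- the first rows `(a + 1, b)` -/
def XR (n : ℕ) : Finset (Σ _ : ℕ, ℕ) :=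
  (Finset.range n).sigma fun a => (Finset.range (a + 1)).filter fun b => (a + 1).Coprime b

lemma XR_card (n : ℕ) : (XR n).card = ∑ c ∈ Finset.range n, Nat.totient (c + 1) := by
  unfold XR
  rw [Finset.card_sigma]
  rfl

lemma mem_XR {n : ℕ} {x : Σ _ : ℕ, ℕ} : x ∈ XR n ↔ x.1 < n ∧ x.2 < x.1 + 1 ∧
    (x.1 + 1).Coprime x.2 := by
  unfold XR
  rw [Finset.mem_sigma, Finset.mem_range, Finset.mem_filter, Finset.mem_range]

lemma sq_le_of_XR {N : ℕ} {x : Σ _ : ℕ, ℕ} (hx : x ∈ XR (Nat.sqrt N)) :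
    ((x.1 : ℤ) + 1) ^ 2 ≤ N := by
  have h1 : x.1 + 1 ≤ Nat.sqrt N := (mem_XR.1 hx).1
  have h2 : (x.1 + 1) * (x.1 + 1) ≤ N := (Nat.mul_le_mul h1 h1).trans (Nat.sqrt_le N)
  rw [pow_two]
  exact_mod_cast h2

/-- the swapped row -/
lemma exists_swap {N : ℕ} (hN : N.Prime) (x : XR (Nat.sqrt N)) :
    ∃ (y : XR (Nat.sqrt N)) (d : ℤ), y.1.1 = x.1.1 ∧
      ((x.1.1 : ℤ) + 1) * d - N * (x.1.2 : ℤ) * (y.1.2 : ℤ) = 1 := by
  obtain ⟨hx1, hx2, hx3⟩ := mem_XR.1 x.2
  set a : ℤ := (x.1.1 : ℤ) + 1 with ha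
  have ha1 : 1 ≤ a := by omega
  have hcop : IsCoprime a (x.1.2 : ℤ) := by
    rw [ha]
    exact_mod_cast Nat.isCoprime_iff_coprime.2 hx3
  obtain ⟨u, v, huv⟩ := exists_row hN ha1 (sq_le_of_XR x.2) hcop
  have hc0 : 0 ≤ u % a := Int.emod_nonneg _ (by omega)
  have hc1 : u % a < a := Int.emod_lt_of_pos _ (by omega)
  have hdiv := Int.emod_add_mul_ediv u a
  have hdet : a * (v - N * x.1.2 * (u / a)) - N * (x.1.2 : ℤ) * (u % a) = 1 := by
    have e : a * (v - N * x.1.2 * (u / a)) - N * (x.1.2 : ℤ) * (u % a) =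
      a * v - N * x.1.2 * (u % a + a * (u / a)) := by ring
    rw [e, hdiv]
    exact huv
  have hcast : (((u % a).toNat : ℕ) : ℤ) = u % a := Int.toNat_of_nonneg hc0
  refine ⟨⟨⟨x.1.1, (u % a).toNat⟩, ?_⟩, v - N * x.1.2 * (u / a), rfl, ?_⟩
  · refine mem_XR.2 ⟨hx1, ?_, ?_⟩
    · change (u % a).toNat < x.1.1 + 1
      omega
    · change (x.1.1 + 1).Coprime (u % a).toNat
      rw [← Nat.isCoprime_iff_coprime, hcast]
      push_cast
      rw [← ha]
      exact ⟨v - N * x.1.2 * (u / a), -(N * x.1.2), by linarith⟩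
  · change a * (v - N * x.1.2 * (u / a)) - N * (x.1.2 : ℤ) * (((u % a).toNat : ℕ) : ℤ) = 1
    rw [hcast]
    exact hdet

/-- the swap is an involution -/
lemma swap_unique {N : ℕ} {a b c b' d d' : ℤ} (hb : 0 ≤ b) (hb1 : b < a) (hb' : 0 ≤ b')
    (hb1' : b' < a) (h : a * d - N * b * c = 1) (h' : a * d' - N * c * b' = 1) : b' = b := by
  have hcop : IsCoprime a ((N : ℤ) * c) := ⟨d, -b, by linarith⟩
  have hdvd : a ∣ (N : ℤ) * c * (b' - b) := ⟨d' - d, by linarith⟩
  obtain ⟨m, hm⟩ := hcop.dvd_of_dvd_mul_left hdvd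
  have h1 : m = 0 := by
    by_contra hne
    rcases lt_or_gt_of_ne hne with h2 | h2
    · have : a * m ≤ -a := by nlinarith
      linarith
    · have : a ≤ a * m := by nlinarith
      linarith
  rw [h1] at hm
  linarith

/-- INJ : a combination of newforms is determined by the real parts of its symbols -/
def S_INJ : Prop := ∀ (N : ℕ) [NeZero N], N.Prime → ∀ B : Finset (SF N 2), IsNewBasis N 2 B →
  ∀ P ⊆ B, ∀ w : P → ℂ, (∀ x : XX N, (∑ f : P, w f * dd f.1 x).re = 0) → w = 0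

/-- the real part of a period, as a linear function -/
noncomputable def LPh {N : ℕ} [NeZero N] (P : Finset (Cf2 N)) (a b c d : ℤ) :
    (P → ℂ) →ₗ[ℝ] ℝ where
  toFun w := Ph w a b c d
  map_add' w w' := by
    by_cases h : a * d - N * b * c = 1
    · rw [Ph_eq _ h, Ph_eq _ h, Ph_eq _ h, ← Complex.add_re, ← Finset.sum_add_distrib]
      congr 1
      refine Finset.sum_congr rfl fun f _ => ?_
      rw [Pi.add_apply, add_mul]
    · unfold Ph
      rw [dif_neg h, dif_neg h, dif_neg h, add_zero]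
  map_smul' r w := by
    by_cases h : a * d - N * b * c = 1
    · rw [Ph_eq _ h, Ph_eq _ h, RingHom.id_apply, smul_eq_mul, ← Complex.re_ofReal_mul,
        Finset.mul_sum]
      congr 1
      refine Finset.sum_congr rfl fun f _ => ?_
      rw [Pi.smul_apply, Complex.real_smul, mul_assoc]
    · unfold Ph
      rw [dif_neg h, dif_neg h, smul_zero]

theorem four_card (hinj : S_INJ) (N : ℕ) [NeZero N] (hN : N.Prime) (B : Finset (SF N 2))
    (hB : IsNewBasis N 2 B) (P : Finset (SF N 2)) (hPB : P ⊆ B)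
    (hP : ∀ f ∈ P, W388.IsNewf N 2 f (-1)) :
    4 * P.card ≤ ∑ c ∈ Finset.range (Nat.sqrt N), Nat.totient (c + 1) := by
  classical
  choose ι d h1 h2 using exists_swap hN
  -- the values
  set v : (P → ℂ) → XR (Nat.sqrt N) → ℝ := fun w x =>
    Ph w ((x.1.1 : ℤ) + 1) (x.1.2 : ℤ) ((ι x).1.2 : ℤ) (d x) with hv
  have hιι : ∀ x, ι (ι x) = x := by
    intro x
    have e1 := h1 (ι x)
    have e2 := h1 x
    have g1 := h2 x
    have g2 := h2 (ι x)
    rw [e2] at g2
    obtain ⟨-, m2, -⟩ := mem_XR.1 x.2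
    obtain ⟨-, m4, -⟩ := mem_XR.1 (ι (ι x)).2
    rw [e1, e2] at m4
    have e3 : ((ι (ι x)).1.2 : ℤ) = (x.1.2 : ℤ) :=
      swap_unique (a := (x.1.1 : ℤ) + 1) (by omega) (by omega) (by omega) (by omega) g1 g2
    apply Subtype.ext
    refine Sigma.ext (e1.trans e2) (heq_of_eq ?_)
    exact_mod_cast e3
  have hrel : ∀ w x, v w (ι x) = -v w x := by
    intro w x
    have hm := hm_Ph hN hP w
    have g1 := h2 x
    have g2 := h2 (ι x)
    rw [h1 x] at g2
    have g3 : ((x.1.1 : ℤ) + 1) * d x - N * ((ι x).1.2 : ℤ) * (x.1.2 : ℤ) = 1 := by linarith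
    have s1 := hm.swap g1
    have s2 := hm.dep g3 g2 (by omega) (by rw [sub_self]; exact dvd_zero _)
    simp only [hv]
    rw [h1 x, ← s2, s1]
  have hzero : ∀ w : P → ℂ, (∀ x, v w x = 0) → w = 0 := by
    intro w hw
    have hm := hm_Ph hN hP w
    refine hinj N hN B hB P hPB w fun x => dd_zero hN hP w ?_ x
    refine descent hN hm ?_
    intro a b c d' ha haN hdet
    have hb0 : 0 ≤ b % a := Int.emod_nonneg _ (by omega)
    have hb1 : b % a < a := Int.emod_lt_of_pos _ (by omega)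
    have hcop : IsCoprime a (b % a) := by
      have h3 : IsCoprime a b := ⟨d', -(N * c), by linarith⟩
      have h4 : b % a = b + a * (-(b / a)) := by
        have := Int.emod_add_mul_ediv b a
        linarith
      rw [h4]
      exact (IsCoprime.add_mul_left_right_iff (z := -(b / a))).2 h3
    have e1 : (((a - 1).toNat : ℕ) : ℤ) + 1 = a := by omega
    have e2 : (((b % a).toNat : ℕ) : ℤ) = b % a := Int.toNat_of_nonneg hb0
    have hmem : (⟨(a - 1).toNat, (b % a).toNat⟩ : Σ _ : ℕ, ℕ) ∈ XR (Nat.sqrt N) := by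
      refine mem_XR.2 ⟨?_, ?_, ?_⟩
      · change (a - 1).toNat < Nat.sqrt N
        have h5 : ((a - 1).toNat + 1) * ((a - 1).toNat + 1) ≤ N := by
          have : ((((a - 1).toNat + 1) * ((a - 1).toNat + 1) : ℕ) : ℤ) ≤ N := by
            push_cast
            rw [e1, ← pow_two]
            exact haN
          exact_mod_cast this
        exact Nat.le_sqrt.2 h5
      · change (b % a).toNat < (a - 1).toNat + 1
        omega
      · change ((a - 1).toNat + 1).Coprime (b % a).toNat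
        rw [← Nat.isCoprime_iff_coprime]
        push_cast
        rw [e1, e2]
        exact hcop
    have h5 := hw ⟨_, hmem⟩
    have h6 := h2 ⟨_, hmem⟩
    simp only [hv] at h5
    simp only at h6
    rw [e1, e2] at h5 h6
    rw [hm.dep hdet h6 (by omega) ⟨-(b / a), by
      have := Int.emod_add_mul_ediv b a
      linarith⟩]
    exact h5
  -- the linear map
  set Ψ : ((P → ℂ) × (P → ℂ)) →ₗ[ℝ] (XR (Nat.sqrt N) → ℝ) := LinearMap.pi fun x =>
    if x.1.2 < (ι x).1.2 then
      (LPh P ((x.1.1 : ℤ) + 1) (x.1.2 : ℤ) ((ι x).1.2 : ℤ) (d x)).comp (LinearMap.fst ℝ _ _)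
    else (LPh P ((x.1.1 : ℤ) + 1) (x.1.2 : ℤ) ((ι x).1.2 : ℤ) (d x)).comp (LinearMap.snd ℝ _ _)
    with hΨ
  have hΨ1 : ∀ (w w' : P → ℂ) x, x.1.2 < (ι x).1.2 → Ψ (w, w') x = v w x := by
    intro w w' x hx
    rw [hΨ, LinearMap.pi_apply, if_pos hx]
    rfl
  have hΨ2 : ∀ (w w' : P → ℂ) x, ¬ x.1.2 < (ι x).1.2 → Ψ (w, w') x = v w' x := by
    intro w w' x hx
    rw [hΨ, LinearMap.pi_apply, if_neg hx]
    rfl
  have hinjΨ : Function.Injective Ψ := by
    rw [injective_iff_map_eq_zero]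
    rintro ⟨w, w'⟩ h0
    have h0' : ∀ x, Ψ (w, w') x = 0 := fun x => by rw [h0]; rfl
    have hw : w = 0 := by
      refine hzero w fun x => ?_
      rcases lt_trichotomy x.1.2 (ι x).1.2 with h3 | h3 | h3
      · rw [← hΨ1 w w' x h3]
        exact h0' x
      · have h4 : ι x = x := by
          apply Subtype.ext
          exact Sigma.ext (h1 x) (heq_of_eq h3.symm)
        have h5 := hrel w x
        rw [h4] at h5
        linarith
      · have h4 := hrel w x
        have h5 := hΨ1 w w' (ι x) (by rw [hιι]; exact h3)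
        rw [h0' (ι x)] at h5
        linarith
    have hw' : w' = 0 := by
      refine hzero w' fun x => ?_
      rcases lt_or_ge x.1.2 (ι x).1.2 with h3 | h3
      · have h4 := hrel w' x
        have h5 := hΨ2 w w' (ι x) (by rw [hιι]; exact not_lt.2 h3.le)
        rw [h0' (ι x)] at h5
        linarith
      · rw [← hΨ2 w w' x (not_lt.2 h3)]
        exact h0' x
    rw [hw, hw']
    rfl
  have hfin := LinearMap.finrank_le_finrank_of_injective hinjΨ
  rw [Module.finrank_prod, Module.finrank_pi_fintype, Module.finrank_pi, Fintype.card_coe,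
    XR_card] at hfin
  simp only [Complex.finrank_real_complex, Finset.sum_const, Finset.card_univ, Fintype.card_coe,
    smul_eq_mul] at hfin
  omega

/-- **Few newforms have sign `-1`.** -/
theorem hp7 (hinj : S_INJ) (N : ℕ) [NeZero N] (hN : N.Prime) (B : Finset (SF N 2))
    (hB : IsNewBasis N 2 B) (P : Finset (SF N 2)) (hPB : P ⊆ B)
    (hP : ∀ f ∈ P, W388.IsNewf N 2 f (-1)) :
    (P.card : ℝ) ≤ 2 / 25 * N + 36 / 5 * Real.sqrt N + 144 := by
  have h1 := four_card hinj N hN B hB P hPB hP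
  have h2 := tot_sqrt N
  have h3 : (4 : ℝ) * P.card ≤
      ((∑ c ∈ Finset.range (Nat.sqrt N), Nat.totient (c + 1) : ℕ) : ℝ) := by exact_mod_cast h1
  linarith

end Pool.Agent.K4H7.HP
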