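import Pool.Agent.K4H13.CV.Asm1
import Pool.Agent.K4H13.CV.Cusp1
import Pool.Agent.K4H13.CV.Green
import Pool.Agent.K4H13.CV.Pet
import Pool.Agent.K4H7.HP.Main

/-!
# A combination of newforms is determined by the real parts of its symbols
-/

set_option autoImplicit false

open Complex Filter Topology Set UpperHalfPlane MatrixGroups CongruenceSubgroup

namespace Pool.Agent.K4H7.HP

open Pool.Agent.K4H13.CV
open W388.LV (SF IsNewBasis)

theorem inj (hgr : S_GREEN) (hpe : S_PET) (hcu : S_CUSP1) : S_INJ := by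
  intro N _ hN B hB P hPB w hw
  classical
  have hsum : ∀ F : SF N 2 → ℂ, ∑ f : B, ex w f.1 * F f.1 = ∑ f : P, w f * F f.1 := by
    intro F
    have e1 : ∑ f : B, ex w f.1 * F f.1 = ∑ f ∈ B, ex w f * F f :=
      Finset.sum_coe_sort B fun f => ex w f * F f
    have e2 : ∑ f : P, w f * F f.1 = ∑ f ∈ P, ex w f * F f := by
      rw [← Finset.sum_coe_sort P fun f => ex w f * F f]
      exact Finset.sum_congr rfl fun f _ => by rw [ex_coe]
    rw [e1, e2]
    refine (Finset.sum_subset hPB fun f _ hf => ?_).symm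
    unfold ex
    rw [dif_neg hf, zero_mul]
  have h1 := haberland hgr hpe hcu hN hB (fun f : B => ex w f.1)
  have h2 : ∑ x : XX N, |(∑ f : B, ex w f.1 * dd f.1 x).re| = 0 := by
    refine Finset.sum_eq_zero fun x _ => ?_
    rw [hsum fun f => dd f x, hw x, abs_zero]
  rw [h2, mul_zero] at h1
  have hpi := Real.pi_pos
  have hc : 0 < Real.exp (-(4 * Real.pi)) * Real.pi := by positivity
  have h3 : ∑ f : B, ‖ex w f.1‖ ^ 2 = 0 := by
    have h4 : 0 ≤ ∑ f : B, ‖ex w f.1‖ ^ 2 := Finset.sum_nonneg fun f _ => sq_nonneg _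
    nlinarith
  funext f
  have h5 := (Finset.sum_eq_zero_iff_of_nonneg fun (g : B) _ => sq_nonneg ‖ex w g.1‖).1 h3
    ⟨f.1, hPB f.2⟩ (Finset.mem_univ _)
  have h6 : ‖ex w f.1‖ = 0 := by simpa using h5
  rw [ex_coe, norm_eq_zero] at h6
  exact h6

end Pool.Agent.K4H7.HP
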