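import Pool.Agent.K4H13.CV.Cus0
import Pool.Agent.K4H7.HP.Desc

/-!
# The periods of the newforms with sign `-1`
-/

set_option autoImplicit false

open Complex Filter Topology Set UpperHalfPlane MatrixGroups CongruenceSubgroup ModularGroup

namespace Pool.Agent.K4H7.HP

open Pool.Agent.TH940 (prim Fr prim_fricke)
open Pool.Agent.Y18.BSD
open Pool.Agent.K4H13.CV
open W388.LV (SF IsNewBasis)

variable {N : ℕ} [NeZero N]

/-- the matrix `(a b; N c d)` -/
def mk (a b c d : ℤ) (h : a * d - N * b * c = 1) : Gamma0 N :=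
  ⟨⟨!![a, b; N * c, d], by rw [Matrix.det_fin_two_of]; linarith⟩, by
    rw [Gamma0_mem]
    simp⟩

lemma mk_mul {a b c d a' b' c' d' : ℤ} (h : a * d - N * b * c = 1)
    (h' : a' * d' - N * b' * c' = 1) (h'' : (a * a' + N * b * c') * (N * c * b' + d * d') -
      N * (a * b' + b * d') * (c * a' + d * c') = 1) :
    mk (a * a' + N * b * c') (a * b' + b * d') (c * a' + d * c') (N * c * b' + d * d') h'' =
      mk a b c d h * mk a' b' c' d' h' := by
  apply Subtype.ext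
  apply Subtype.ext
  change !![_, _; _, _] = !![a, b; (N : ℤ) * c, d] * !![a', b'; (N : ℤ) * c', d']
  rw [Matrix.mul_fin_two]
  have e1 : a * a' + b * (N * c') = a * a' + N * b * c' := by ring
  have e2 : (N : ℤ) * c * a' + d * (N * c') = N * (c * a' + d * c') := by ring
  rw [e1, e2]

lemma mk_surj (γ : Gamma0 N) : ∃ (a b c d : ℤ) (h : a * d - N * b * c = 1), γ = mk a b c d h := by
  obtain ⟨g, hg⟩ := γ
  obtain ⟨c, hc⟩ := mem0.1 hg
  have hdet := Matrix.SpecialLinearGroup.det_coe g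
  rw [Matrix.det_fin_two] at hdet
  refine ⟨g 0 0, g 0 1, c, g 1 1, ?_, ?_⟩
  · have : (g 0 1 : ℤ) * g 1 0 = N * g 0 1 * c := by rw [hc]; ring
    have h2 : (g 0 0 : ℤ) * g 1 1 - g 0 1 * g 1 0 = 1 := hdet
    linarith
  · apply Subtype.ext
    apply Subtype.ext
    change (g : Matrix (Fin 2) (Fin 2) ℤ) = !![_, _; _, _]
    ext i j
    fin_cases i <;> fin_cases j <;> simp [hc]

lemma act (γ : SL(2, ℤ)) (z : ℍ) : ((γ • z : ℍ) : ℂ) =
    (((γ 0 0 : ℤ) : ℂ) * z + ((γ 0 1 : ℤ) : ℂ)) / (((γ 1 0 : ℤ) : ℂ) * z + ((γ 1 1 : ℤ) : ℂ)) := by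
  have hden : denom (γ : GL (Fin 2) ℝ) z = ((γ 1 0 : ℤ) : ℂ) * z + ((γ 1 1 : ℤ) : ℂ) := by
    rw [ModularGroup.denom_apply]
  rw [ModularGroup.sl_moeb, coe_smul_of_det_pos (by simp) z, hden]
  congr 1

lemma act_mk {a b c d : ℤ} (h : a * d - N * b * c = 1) (z : ℍ) :
    ((((mk a b c d h : Gamma0 N) : SL(2, ℤ)) • z : ℍ) : ℂ) =
      ((a : ℂ) * z + b) / (N * c * z + d) := by
  rw [act]
  simp [mk]

/-- the fixed point of the Fricke involution -/
lemma exists_fix : ∃ z : ℍ, (N : ℂ) * (z : ℂ) ^ 2 = -1 := by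
  have hN0 : (0 : ℝ) < N := Nat.cast_pos.2 (Nat.pos_of_ne_zero (NeZero.ne N))
  have hs : 0 < Real.sqrt N := Real.sqrt_pos.2 hN0
  have hsc : ((Real.sqrt N : ℝ) : ℂ) ≠ 0 := Complex.ofReal_ne_zero.2 hs.ne'
  have him : 0 < (((1 / Real.sqrt N : ℝ) : ℂ) * Complex.I).im := by
    rw [Complex.im_ofReal_mul, Complex.I_im, mul_one]
    positivity
  refine ⟨⟨((1 / Real.sqrt N : ℝ) : ℂ) * Complex.I, him⟩, ?_⟩
  change (N : ℂ) * (((1 / Real.sqrt N : ℝ) : ℂ) * Complex.I) ^ 2 = -1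
  have h3 : (N : ℂ) = ((Real.sqrt N : ℝ) : ℂ) ^ 2 := by
    rw [← Complex.ofReal_pow, Real.sq_sqrt hN0.le]
    norm_cast
  rw [mul_pow, Complex.I_sq, h3]
  push_cast
  field_simp

/-- the primitive is invariant under the Fricke involution -/
lemma prim_inv {f : Cf2 N} (hf : W388.IsNewf N 2 f (-1)) (z : ℂ) (hz : 0 < z.im) :
    prim f (-1 / (N * z)) = prim f z := by
  obtain ⟨c0, hc0⟩ := prim_fricke f ((-1 : ℝ) : ℂ) (fr_of_newf hf)
  have h1 := prim_zero_tendsto f hc0 (fr_of_newf hf)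
  have h2 := bv_zero_eq hf
  have h3 : c0 = 0 := by
    rw [← h1, h2]
    push_cast
    ring
  rw [hc0 z hz, h3]
  push_cast
  ring

/-- the periods are invariant under the Fricke involution -/
lemma per_w {f : Cf2 N} (hf : W388.IsNewf N 2 f (-1)) {a b c d : ℤ}
    (h : a * d - N * b * c = 1) (h' : d * a - N * (-c) * (-b) = 1) :
    per f (mk d (-c) (-b) a h') = per f (mk a b c d h) := by
  obtain ⟨z, hz⟩ := exists_fix (N := N)
  have hNc : (N : ℂ) ≠ 0 := Nat.cast_ne_zero.2 (NeZero.ne N)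
  have hz0 : (z : ℂ) ≠ 0 := ne_zero z
  have h1 := per_spec f (mk a b c d h) z
  have h2 := per_spec f (mk d (-c) (-b) a h') z
  have e1 := act_mk h z
  have e2 := act_mk h' z
  have hne1 : (N : ℂ) * c * z + d ≠ 0 := by
    have := denom_ne_zero (((mk a b c d h : Gamma0 N) : SL(2, ℤ)) : GL (Fin 2) ℝ) z
    rw [ModularGroup.denom_apply] at this
    simpa [mk] using this
  have hne2 : (N : ℂ) * ((-b : ℤ) : ℂ) * z + a ≠ 0 := by
    have := denom_ne_zero (((mk d (-c) (-b) a h' : Gamma0 N) : SL(2, ℤ)) : GL (Fin 2) ℝ) z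
    rw [ModularGroup.denom_apply] at this
    simpa [mk] using this
  have hne3 : (a : ℂ) * z + b ≠ 0 := by
    intro h3
    have h4 : (((((mk a b c d h : Gamma0 N) : SL(2, ℤ)) • z : ℍ) : ℂ)) = 0 := by
      rw [e1, h3, zero_div]
    exact ne_zero _ h4
  have h3 := prim_inv hf _ ((((mk a b c d h : Gamma0 N) : SL(2, ℤ)) • z : ℍ)).im_pos
  have e3 : -1 / ((N : ℂ) * ((((mk a b c d h : Gamma0 N) : SL(2, ℤ)) • z : ℍ) : ℂ)) =
      ((((mk d (-c) (-b) a h' : Gamma0 N) : SL(2, ℤ)) • z : ℍ) : ℂ) := by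
    have e4 : ∀ A D : ℂ, A ≠ 0 → D ≠ 0 → -1 / ((N : ℂ) * (A / D)) = -D / (N * A) := by
      intro A D hA hD
      field_simp
    rw [e1, e2, e4 _ _ hne3 hne1, div_eq_div_iff (mul_ne_zero hNc hne3) hne2]
    push_cast
    linear_combination ((N : ℂ) * b * c - a * d) * hz
  change prim f (-1 / ((N : ℂ) * ((((mk a b c d h : Gamma0 N) : SL(2, ℤ)) • z : ℍ) : ℂ))) = _ at h3
  rw [e3] at h3
  change prim f ((((mk d (-c) (-b) a h' : Gamma0 N) : SL(2, ℤ)) • z : ℍ) : ℂ) =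
    prim f ((((mk a b c d h : Gamma0 N) : SL(2, ℤ)) • z : ℍ) : ℂ) at h3
  rw [h1, h2] at h3
  exact add_left_cancel h3

lemma per_T (hN : N.Prime) {f : Cf2 N} {ε : ℝ} (hf : W388.IsNewf N 2 f ε) (k : ℤ)
    (h : (1 : ℤ) * 1 - N * k * 0 = 1) : per f (mk 1 k 0 1 h) = 0 := by
  have h1 := cc_T hN hf 1 k
  rw [one_mul, cc_one] at h1
  rw [← cc_mem hN hf, ← h1]
  congr 1
  apply Subtype.ext
  change !![1, k; (N : ℤ) * 0, 1] = _
  rw [coe_T_zpow]
  simp

lemma per_neg (hN : N.Prime) {f : Cf2 N} {ε : ℝ} (hf : W388.IsNewf N 2 f ε)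
    (h : (-1 : ℤ) * (-1) - N * 0 * 0 = 1) : per f (mk (-1) 0 0 (-1) h) = 0 := by
  have h1 := cc_neg hN hf 1
  rw [cc_one] at h1
  rw [← cc_mem hN hf, ← h1]
  congr 1
  apply Subtype.ext
  change !![-1, 0; (N : ℤ) * 0, -1] = _
  ext i j
  fin_cases i <;> fin_cases j <;> simp

/-- the values at the cusps -/
lemma cc_S_zero {f : Cf2 N} (hf : W388.IsNewf N 2 f (-1)) : CC f S = 0 := by
  rw [cc_S hf, bv_zero_eq hf]
  push_cast
  ring

open Classical in
/-- the real parts of the periods of a combination -/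
noncomputable def Ph {P : Finset (Cf2 N)} (w : P → ℂ) (a b c d : ℤ) : ℝ :=
  if h : a * d - N * b * c = 1 then (∑ f : P, w f * per f.1 (mk a b c d h)).re else 0

lemma Ph_eq {P : Finset (Cf2 N)} (w : P → ℂ) {a b c d : ℤ} (h : a * d - N * b * c = 1) :
    Ph w a b c d = (∑ f : P, w f * per f.1 (mk a b c d h)).re := by
  unfold Ph
  rw [dif_pos h]

lemma hm_Ph (hN : N.Prime) {P : Finset (Cf2 N)} (hP : ∀ f ∈ P, W388.IsNewf N 2 f (-1))
    (w : P → ℂ) : Hm N (Ph w) where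
  mul a b c d a' b' c' d' h h' := by
    have h'' : (a * a' + N * b * c') * (N * c * b' + d * d') -
        N * (a * b' + b * d') * (c * a' + d * c') = 1 := by
      linear_combination (a' * d' - N * b' * c') * h + h'
    rw [Ph_eq w h, Ph_eq w h', Ph_eq w h'', ← Complex.add_re, ← Finset.sum_add_distrib]
    congr 1
    refine Finset.sum_congr rfl fun f _ => ?_
    rw [mk_mul h h' h'', per_mul]
    ring
  T k := by
    have h : (1 : ℤ) * 1 - N * k * 0 = 1 := by ring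
    rw [Ph_eq w h, Finset.sum_eq_zero fun f _ => ?_, Complex.zero_re]
    rw [per_T hN (hP f.1 f.2), mul_zero]
  neg := by
    have h : (-1 : ℤ) * (-1) - N * 0 * 0 = 1 := by ring
    rw [Ph_eq w h, Finset.sum_eq_zero fun f _ => ?_, Complex.zero_re]
    rw [per_neg hN (hP f.1 f.2), mul_zero]
  w a b c d h := by
    have h' : d * a - N * (-c) * (-b) = 1 := by linarith
    rw [Ph_eq w h, Ph_eq w h']
    congr 1
    refine Finset.sum_congr rfl fun f _ => ?_
    rw [per_w (hP f.1 f.2) h h']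

/-- if the real parts of the periods vanish, so do those of the symbols -/
lemma dd_zero (hN : N.Prime) {P : Finset (Cf2 N)} (hP : ∀ f ∈ P, W388.IsNewf N 2 f (-1))
    (w : P → ℂ) (hw : ∀ a b c d : ℤ, a * d - N * b * c = 1 → Ph w a b c d = 0) (x : XX N) :
    (∑ f : P, w f * dd f.1 x).re = 0 := by
  have hper : ∀ γ : Gamma0 N, (∑ f : P, w f * per f.1 γ).re = 0 := by
    intro γ
    obtain ⟨a, b, c, d, h, rfl⟩ := mk_surj γ
    rw [← Ph_eq w h]
    exact hw a b c d h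
  have hcc : ∀ g : SL(2, ℤ), (∑ f : P, w f * CC f.1 g).re = 0 := by
    intro g
    rcases cases0 hN g with hg | ⟨j, γ, hγ, rfl⟩
    · rw [← hper ⟨g, hg⟩]
      congr 1
      refine Finset.sum_congr rfl fun f _ => ?_
      rw [← cc_mem hN (hP f.1 f.2)]
    · rw [← hper ⟨γ, hγ⟩]
      congr 1
      refine Finset.sum_congr rfl fun f _ => ?_
      have h1 := cc_mul hN (hP f.1 f.2) ⟨γ, hγ⟩ (S * T ^ j)
      rw [cc_T hN (hP f.1 f.2), cc_S_zero (hP f.1 f.2), add_zero] at h1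
      rw [← h1]
  have h1 : ∑ f : P, w f * dd f.1 x =
      ∑ f : P, w f * CC f.1 (gx x * S) - ∑ f : P, w f * CC f.1 (gx x) := by
    rw [← Finset.sum_sub_distrib]
    refine Finset.sum_congr rfl fun f _ => ?_
    unfold dd
    ring
  rw [h1, Complex.sub_re, hcc, hcc, sub_zero]

end Pool.Agent.K4H7.HP
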